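import Mathlib

/-!
# Tournaments, densities, dominant families, highly dominant tournaments
-/

namespace Pool.Agent.Helper59.TD

open Finset

/-- A tournament on the vertex set `Fin n`; `adj i j = true` means that the arc between `i` and
`j` goes from `i` to `j`. -/
structure Tour (n : ℕ) where
  adj : Fin n → Fin n → Bool
  irr : ∀ i, adj i i = false
  anti : ∀ i j, i ≠ j → adj i j = !adj j i

/-- Isomorphism of tournaments. -/
def Tour.Iso {n : ℕ} (G H : Tour n) : Prop :=
  ∃ σ : Equiv.Perm (Fin n), ∀ i j, G.adj (σ i) (σ j) = H.adj i j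

theorem Tour.Iso.refl {n : ℕ} (G : Tour n) : G.Iso G := ⟨Equiv.refl _, fun _ _ => rfl⟩

theorem Tour.Iso.symm {n : ℕ} {G H : Tour n} (h : G.Iso H) : H.Iso G := by
  obtain ⟨σ, hσ⟩ := h
  refine ⟨σ⁻¹, fun i j => ?_⟩
  rw [← hσ]
  simp

theorem Tour.Iso.trans {n : ℕ} {G H K : Tour n} (h : G.Iso H) (h' : H.Iso K) : G.Iso K := by
  obtain ⟨σ, hσ⟩ := h
  obtain ⟨τ, hτ⟩ := h'
  exact ⟨σ * τ, fun i j => by rw [← hτ, ← hσ]; rfl⟩

instance tourSetoid (n : ℕ) : Setoid (Tour n) where
  r := Tour.Iso
  iseqv := ⟨Tour.Iso.refl, Tour.Iso.symm, Tour.Iso.trans⟩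

/-- The isomorphism classes of tournaments on `h` vertices. -/
def TClass (h : ℕ) : Type := Quotient (tourSetoid h)

/-- The isomorphism class of a tournament. -/
def Tour.cls {h : ℕ} (H : Tour h) : TClass h := Quotient.mk (tourSetoid h) H

/-- The vertex set `S` of `G` induces a tournament isomorphic to `H`. -/
def InducesOn {h n : ℕ} (H : Tour h) (G : Tour n) (S : Finset (Fin n)) : Prop :=
  ∃ φ : Fin h ↪ Fin n, univ.map φ = S ∧ ∀ i j, G.adj (φ i) (φ j) = H.adj i j

open Classical in
/-- The induced density of `H` in `G`: the fraction of the `h`-element vertex sets of `G` that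
induce a tournament isomorphic to `H`. -/
noncomputable def dens {h n : ℕ} (H : Tour h) (G : Tour n) : ℝ :=
  (((univ : Finset (Fin n)).powersetCard h).filter (InducesOn H G)).card / (n.choose h : ℝ)

/-- The number of automorphisms. -/
def autCard {h : ℕ} (H : Tour h) : ℕ :=
  Fintype.card {σ : Equiv.Perm (Fin h) // ∀ i j, H.adj (σ i) (σ j) = H.adj i j}

/-- The expected density of `H` in a uniformly random tournament,
`h! * 2 ^ (-(h choose 2)) / aut H`. -/
noncomputable def rnd {h : ℕ} (H : Tour h) : ℝ :=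
  (h.factorial : ℝ) / 2 ^ (h.choose 2) / (autCard H : ℝ)

/-- A family of isomorphism classes of tournaments on `h` vertices is dominant if there are
`β > 0` and `n₀` such that for all `n ≥ n₀` some tournament on `n` vertices has density at least
`(1 + β) * rnd H` of `H` for all members `H` of the family simultaneously. -/
def Dominant {h : ℕ} (F : Set (TClass h)) : Prop :=
  ∃ β : ℝ, 0 < β ∧ ∃ n₀ : ℕ, ∀ n ≥ n₀, ∃ G : Tour n,
    ∀ H : Tour h, H.cls ∈ F → (1 + β) * rnd H ≤ dens H G

/-- `H` is highly dominant if it belongs to every maximal dominant family. -/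
def HighlyDominant {h : ℕ} (H : Tour h) : Prop :=
  ∀ F : Set (TClass h), Maximal Dominant F → H.cls ∈ F

/-- A tournament is transitive if its arcs form a transitive relation. -/
def Tour.IsTransitive {h : ℕ} (H : Tour h) : Prop :=
  ∀ i j k, H.adj i j = true → H.adj j k = true → H.adj i k = true

end Pool.Agent.Helper59.TD
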