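import Pool.Agent.Helper59.TD.Basic
import Pool.Agent.Helper59.TD.Data5

/-!
# Labelled copies and the twelve tournaments on five vertices
-/

namespace Pool.Agent.Helper59.TD

open Finset

/-- The number of labelled copies of `H` in `G`. -/
noncomputable def cnt {h n : ℕ} (H : Tour h) (G : Tour n) : ℕ :=
  (univ.filter fun φ : Fin h ↪ Fin n => ∀ i j, G.adj (φ i) (φ j) = H.adj i j).card

/-- The number of labelled copies of `H` in `G` that contain the vertex `v`. -/
noncomputable def cntAt {h n : ℕ} (H : Tour h) (G : Tour n) (v : Fin n) : ℕ :=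
  (univ.filter fun φ : Fin h ↪ Fin n =>
    (∀ i j, G.adj (φ i) (φ j) = H.adj i j) ∧ ∃ i, φ i = v).card

/-- The number of pairs `(a, b)` with `v → a → b → v`. -/
def cyc {n : ℕ} (G : Tour n) (v : Fin n) : ℕ :=
  (univ.filter fun p : Fin n × Fin n =>
    G.adj v p.1 = true ∧ G.adj p.1 p.2 = true ∧ G.adj p.2 v = true).card

/-- The twelve tournaments on five vertices. -/
def Rep (k : Fin 12) : Tour 5 where
  adj i j := ad (reps5.getD k 0) i j
  irr i := by revert i k; decide
  anti i j := by revert i j k; decide

/-- The tournament number 4: the transitive tournament `4 → 3 → 2 → 1 → 0` with the arc between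
the first and the last vertex reversed. -/
theorem Rep4_adj : ∀ i j : Fin 5, (Rep 4).adj i j =
    decide ((j < i ∧ ¬ (i = 4 ∧ j = 0)) ∨ (i = 0 ∧ j = 4)) := by decide

theorem Rep4_not_transitive : ¬ (Rep 4).IsTransitive := by
  intro h
  exact absurd (h 0 4 1 (by decide) (by decide)) (by decide)

/-- The sum over `Fin 5 → Fin m` of the probabilities (with common denominator
`(∑ w) ^ 5 * (2 q) ^ 10`) that a random tournament is `H`, when the vertices are put into the
parts with probabilities proportional to `w` and the arc between vertices in the parts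
`i` and `j` goes from the first to the second with probability `a i j / (2 q)`. -/
def kernelSum {m : ℕ} (w : Fin m → ℕ) (a : Fin m → Fin m → ℕ) (H : Tour 5) : ℕ :=
  ∑ i : Fin 5 → Fin m, (∏ v, w (i v)) *
    ∏ u, ∏ v, if u < v then (if H.adj u v = true then a (i u) (i v) else a (i v) (i u)) else 1

end Pool.Agent.Helper59.TD
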