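import Mathlib

/-!
# Sums over rooted flags in a tournament on an arbitrary finite vertex set
-/

namespace Pool.Agent.Helper59.TD

/-- `A` is the adjacency function of a tournament on `V`. -/
def IsTour {V : Type} (A : V → V → Bool) : Prop :=
  (∀ v, A v v = false) ∧ ∀ u v, u ≠ v → A u v = !A v u

/-- The arcs between a new vertex `v` and the earlier ones `xs` are as prescribed by the list
`c`: `true` means `v` beats the vertex. -/
def okc {V : Type} (A : V → V → Bool) : List Bool → List V → V → Bool
  | [], _, _ => true
  | _ :: _, [], _ => true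
  | b :: bs, x :: xs, v => cond (cond b (A v x) (A x v)) (okc A bs xs v) false

/-- The code of a vertex `e` relative to the list `xs`: the binary number whose bits say which
members of `xs` are beaten by `e` (first bit = head of the list). -/
def cod {V : Type} (A : V → V → Bool) : List V → V → ℕ
  | [], _ => 0
  | x :: xs, e => Nat.add (cond (A e x) 1 0) (Nat.mul 2 (cod A xs e))

/-- The code of an ordered pair of vertices relative to (at most three) roots. -/
def cod2 {V : Type} (A : V → V → Bool) (xs : List V) (a a' : V) : ℕ :=
  Nat.add (cod A xs a) (Nat.add (Nat.mul 8 (cod A xs a')) (cond (A a a') 64 0))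

/-- The number of members `x` of the list with `x → a` and `b → x`. -/
def cyc2 {V : Type} (A : V → V → Bool) (a b : V) : List V → ℕ
  | [] => 0
  | x :: xs => Nat.add (cond (A x a) (cond (A b x) 1 0) 0) (cyc2 A a b xs)

section

variable {V : Type} [Fintype V] [DecidableEq V]

/-- Sum of `k` over all root tuples (most recent root first) with the prescribed arcs. -/
def gWalk (A : V → V → Bool) : List (List Bool) → List V → (List V → ℤ) → ℤ
  | [], xs, k => k xs
  | c :: cs, xs, k => ∑ v : V, if okc A c xs v = true then gWalk A cs (v :: xs) k else 0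

/-- One extra vertex on each side. -/
def gLeaf1 (A : V → V → Bool) (Q : ℕ → ℕ → ℤ) (xs : List V) : ℤ :=
  ∑ a : V, if a ∉ xs then
    ∑ b : V, if b ∉ a :: xs then Q (cod A xs a) (cod A xs b) else 0
  else 0

/-- Two extra vertices on each side. -/
def gLeaf2 (A : V → V → Bool) (Q : ℕ → ℕ → ℤ) (xs : List V) : ℤ :=
  ∑ a : V, if a ∉ xs then
    ∑ a' : V, if a' ∉ a :: xs then
      ∑ b : V, if b ∉ a' :: a :: xs then
        ∑ b' : V, if b' ∉ b :: a' :: a :: xs then
          Q (cod2 A xs a a') (cod2 A xs b b')
        else 0
      else 0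
    else 0
  else 0

/-- The number of `(x, a, b)` with `x` in the list, `a, b` outside and `x → a → b → x`. -/
def gLeafT (A : V → V → Bool) (xs : List V) : ℤ :=
  ∑ a : V, if a ∉ xs then
    ∑ b : V, if b ∉ xs then (if A a b = true then (cyc2 A a b xs : ℤ) else 0) else 0
  else 0

end

/-- `cs` prescribes all arcs among the roots. -/
def wf (cs : List (List Bool)) : Prop := ∀ i (h : i < cs.length), (cs[i]).length = i

/-- Positive semidefiniteness in the form in which it is used. -/
def PSDf (Q : ℕ → ℕ → ℤ) : Prop :=
  ∀ l : List ℕ, 0 ≤ (l.map fun a => (l.map fun b => Q a b).sum).sum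

/-- `F` is an `N`-local function of tournaments: a sum over embeddings of `Fin N`. -/
def Loc (N : ℕ) (F : ∀ (V : Type) [Fintype V] [DecidableEq V], (V → V → Bool) → ℤ) : Prop :=
  ∃ t : (Fin N → Fin N → Bool) → ℤ,
    ∀ (V : Type) [Fintype V] [DecidableEq V] (A : V → V → Bool), IsTour A →
      F V A = ∑ ψ : Fin N ↪ V, t (fun i j => A (ψ i) (ψ j))

end Pool.Agent.Helper59.TD
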