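import Pool.Agent.Helper59.TD.Walk

/-!
# A fraction free check of positive semidefiniteness

A symmetric integer matrix is given by the rows of its upper triangle.
-/

namespace Pool.Agent.Helper59.TD

/-- one elimination row: entries `(p * M - r * s) / d`, exactness checked -/
def elimRow (p d r : ℤ) : List ℤ → List ℤ → Option (List ℤ)
  | s :: ss, M :: Ms =>
    let v := p * M - r * s
    let q := v / d
    if q * d = v then
      match elimRow p d r ss Ms with
      | some t => some (q :: t)
      | none => none
    else none
  | [], [] => some []
  | _, _ => none

/-- elimination of the first row `p :: rs` -/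
def elim (p d : ℤ) : List ℤ → List (List ℤ) → Option (List (List ℤ))
  | r :: rs, row :: rows =>
    match elimRow p d r (r :: rs) row with
    | some t =>
      match elim p d rs rows with
      | some ts => some (t :: ts)
      | none => none
    | none => none
  | [], [] => some []
  | _, _ => none

def allZero : List ℤ → Bool
  | [] => true
  | x :: xs => if x = 0 then allZero xs else false

/-- fraction free elimination; `n` is fuel, `d` the previous pivot -/
def psd : ℕ → ℤ → List (List ℤ) → Bool
  | _, _, [] => true
  | 0, _, _ :: _ => false
  | _ + 1, _, [] :: _ => false
  | n + 1, d, (p :: rs) :: rows =>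
    if p = 0 then
      if allZero rs then psd n d rows else false
    else if 0 < p then
      match elim p d rs rows with
      | some M => psd n p M
      | none => false
    else false

/-- upper triangle of the table -/
def upper (m qt : ℕ) : List (List ℤ) :=
  (List.range m).map fun i => (List.range (m - i)).map fun j => sgn (fld 192 qt (i * m + (i + j)))

/-- the table is symmetric -/
def symOK (m qt : ℕ) : Bool :=
  (List.range m).all fun i => (List.range m).all fun j =>
    Nat.beq (fld 192 qt (i * m + j)) (fld 192 qt (j * m + i))

/-- all numbers in the table of codes are at most `m` -/
def idOK (m idt : ℕ) : Bool :=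
  ((List.range 128).all fun c => Nat.ble (fld 6 idt c) m) && Nat.ble (idt + 1) (2 ^ 768)

/-- all entries are at most `2 ^ k` in absolute value -/
def bdOK (m qt k : ℕ) : Bool :=
  (List.range m).all fun i => (List.range m).all fun j =>
    Nat.ble (sgn (fld 192 qt (i * m + j))).natAbs (2 ^ k)

end Pool.Agent.Helper59.TD
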