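import Pool.Agent.Helper59.TD.Gen

/-!
# Evaluation of flag sums on at most seven vertices (computable part)

The tournament on `0, …, 6` (or `0, …, 4`) is coded by a number `T`; bit `7 * i + j` says
whether `i → j`.  All values are taken modulo `2 ^ 192`; `S` is the summation operator over
the vertex set (`sum7` or `sum5`).
-/

namespace Pool.Agent.Helper59.TD

/-- bit `k` of `T` -/
def bt (T k : ℕ) : Bool := Nat.beq (Nat.land (Nat.shiftRight T k) 1) 1

/-- adjacency coded in `7 * i + j` -/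
def ad (T i j : ℕ) : Bool := bt T (Nat.add (Nat.mul 7 i) j)

/-- sum over seven values -/
def sum7 (g : ℕ → ℕ) : ℕ :=
  Nat.add (g 0) (Nat.add (g 1) (Nat.add (g 2) (Nat.add (g 3) (Nat.add (g 4) (Nat.add (g 5) (g 6))))))

/-- sum over five values -/
def sum5 (g : ℕ → ℕ) : ℕ :=
  Nat.add (g 0) (Nat.add (g 1) (Nat.add (g 2) (Nat.add (g 3) (g 4))))

/-- `e` is not in the list -/
def nin : List ℕ → ℕ → Bool
  | [], _ => true
  | x :: xs, e => cond (Nat.beq x e) false (nin xs e)

/-- field `i` of width `w` of the table `tab` -/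
def fld (w tab i : ℕ) : ℕ := Nat.land (Nat.shiftRight tab (Nat.mul w i)) (Nat.sub (Nat.pow 2 w) 1)

/-- signed reading of a number below `2 ^ 192` -/
def sgn (x : ℕ) : ℤ :=
  cond (Nat.ble (Nat.pow 2 191) x) (Int.negOfNat (Nat.sub (Nat.pow 2 192) x)) (Int.ofNat x)

/-- The quadratic form given by the tables: `idt` (fields of width 6) maps raw codes to
numbers, `0` meaning that the code is not used; `qt` is the `m × m` matrix (fields of width
192, two's complement). -/
def qf (idt m qt : ℕ) (c c' : ℕ) : ℤ :=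
  if fld 6 idt c = 0 then 0 else if fld 6 idt c' = 0 then 0 else
    sgn (fld 192 qt ((fld 6 idt c - 1) * m + (fld 6 idt c' - 1)))

/-- sum over root tuples (most recent first) -/
def rootWalk (S : (ℕ → ℕ) → ℕ) (A : ℕ → ℕ → Bool) :
    List (List Bool) → List ℕ → (List ℕ → ℕ) → ℕ
  | [], xs, k => k xs
  | c :: cs, xs, k => S fun v => cond (okc A c xs v) (rootWalk S A cs (v :: xs) k) 0

/-- leaf for one extra vertex on each side -/
def leaf1 (S : (ℕ → ℕ) → ℕ) (A : ℕ → ℕ → Bool) (idt m qt : ℕ) (xs : List ℕ) : ℕ :=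
  S fun a => cond (nin xs a)
    (Nat.rec 0 (fun i _ =>
      S fun b => cond (nin (a :: xs) b)
        (Nat.rec 0 (fun j _ => fld 192 qt (Nat.add (Nat.mul i m) j)) (fld 6 idt (cod A xs b))) 0)
      (fld 6 idt (cod A xs a))) 0

/-- leaf for two extra vertices on each side -/
def leaf2 (S : (ℕ → ℕ) → ℕ) (A : ℕ → ℕ → Bool) (idt m qt : ℕ) (xs : List ℕ) : ℕ :=
  S fun a => cond (nin xs a) (S fun a' => cond (nin (a :: xs) a')
    (Nat.rec 0 (fun i _ =>
      S fun b => cond (nin (a' :: a :: xs) b) (S fun b' => cond (nin (b :: a' :: a :: xs) b')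
        (Nat.rec 0 (fun j _ => fld 192 qt (Nat.add (Nat.mul i m) j))
          (fld 6 idt (cod2 A xs b b'))) 0) 0)
      (fld 6 idt (cod2 A xs a a'))) 0) 0

/-- leaf of the target -/
def leafT (S : (ℕ → ℕ) → ℕ) (A : ℕ → ℕ → Bool) (xs : List ℕ) : ℕ :=
  S fun a => cond (nin xs a) (S fun b => cond (nin xs b) (cond (A a b) (cyc2 A a b xs) 0) 0) 0

end Pool.Agent.Helper59.TD
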